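import Pool.Agent.N658.TP.Stm2
import Pool.Agent.Y65.PE.Bound

/-!
# Reduced density matrices of vectors on the torus
-/

set_option autoImplicit false

open scoped BigOperators ComplexConjugate Matrix ComplexOrder

noncomputable section

namespace Pool.Agent.N346.TP.Rdm

open Pool.Agent.Y738.PE Pool.Agent.N658.TP

section ent

variable {n : Type} [Fintype n] [DecidableEq n] {ρ : Matrix n n ℂ}

theorem sum_eig (h : ρ.IsHermitian) (ht : ρ.trace = 1) : ∑ i, h.eigenvalues i = 1 := by
  have h1 := h.trace_eq_sum_eigenvalues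
  rw [ht] at h1
  have h2 : ((∑ i, h.eigenvalues i : ℝ) : ℂ) = 1 := by
    push_cast
    exact h1.symm
  exact_mod_cast h2

theorem vnE_nonneg (hp : ρ.PosSemidef) (ht : ρ.trace = 1) : 0 ≤ vnE ρ := by
  unfold vnE
  rw [dif_pos hp.isHermitian]
  refine Finset.sum_nonneg fun i _ => Real.negMulLog_nonneg (hp.eigenvalues_nonneg i) ?_
  rw [← sum_eig hp.isHermitian ht]
  exact Finset.single_le_sum (f := fun i => hp.isHermitian.eigenvalues i)
    (fun i _ => hp.eigenvalues_nonneg i) (Finset.mem_univ i)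

theorem vnE_le (hp : ρ.PosSemidef) (ht : ρ.trace = 1) : vnE ρ ≤ Real.log (Fintype.card n) := by
  unfold vnE
  rw [dif_pos hp.isHermitian]
  have hne : Nonempty n := by
    by_contra hcon
    rw [not_nonempty_iff] at hcon
    rw [Matrix.trace_eq_zero_of_isEmpty] at ht
    exact zero_ne_one ht
  have hN : (0 : ℝ) < Fintype.card n := by exact_mod_cast Fintype.card_pos
  have hN' : (Fintype.card n : ℝ) ≠ 0 := hN.ne'
  have h := Real.concaveOn_negMulLog.le_map_sum (t := (Finset.univ : Finset n))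
    (w := fun _ => 1 / (Fintype.card n : ℝ)) (p := hp.isHermitian.eigenvalues)
    (fun _ _ => by positivity) (by
      rw [Finset.sum_const, Finset.card_univ, nsmul_eq_mul]
      field_simp) (fun i _ => hp.eigenvalues_nonneg i)
  simp only [smul_eq_mul] at h
  rw [← Finset.mul_sum, ← Finset.mul_sum, sum_eig hp.isHermitian ht, mul_one] at h
  have h2 : Real.negMulLog (1 / (Fintype.card n : ℝ)) =
      1 / (Fintype.card n : ℝ) * Real.log (Fintype.card n) := by
    rw [Real.negMulLog, one_div, Real.log_inv]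
    ring
  rw [h2] at h
  exact le_of_mul_le_mul_left h (by positivity)

end ent

section rdm

variable {d L b : ℕ} [NeZero L]

/-- the vector of the contents of the box, the rest being fixed -/
def wv (Ψ : Conf d L → ℂ) (b : ℕ) (s : Conf d L) : BConf d b → ℂ := fun σ => Ψ (put s 0 σ)

theorem avg_expec (hb : b ≤ L) (Ψ : Conf d L → ℂ) (B : BConf d b → BConf d b → ℂ) :
    (Fintype.card (BConf d b) : ℂ) * expec Ψ 0 B =
      ∑ s : Conf d L, ∑ x, ∑ y, conj (wv Ψ b s x) * B x y * wv Ψ b s y := by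
  have h1 := fun (s : Conf d L) (σ : BConf d b) => Pool.Agent.Y65.PE.box_put hb s 0 σ
  have h2 := fun (s : Conf d L) (σ τ : BConf d b) => Pool.Agent.Y65.PE.put_put s 0 σ τ
  have g := Pool.Agent.Y65.PE.avg (fun s : Conf d L => box b s 0) (fun s τ => put s 0 τ) h1 h2
    (fun s => Pool.Agent.Y65.PE.put_box s 0)
    (fun s => ∑ τ, conj (Ψ s) * B (box b s 0) τ * Ψ (put s 0 τ))
  simp only [h1, h2] at g
  rw [nsmul_eq_mul] at g
  exact g

theorem avg_nrm (hb : b ≤ L) (Ψ : Conf d L → ℂ) :
    (Fintype.card (BConf d b) : ℝ) * nrm Ψ = ∑ s : Conf d L, ∑ σ, ‖wv Ψ b s σ‖ ^ 2 := by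
  have h1 := fun (s : Conf d L) (σ : BConf d b) => Pool.Agent.Y65.PE.box_put hb s 0 σ
  have h2 := fun (s : Conf d L) (σ τ : BConf d b) => Pool.Agent.Y65.PE.put_put s 0 σ τ
  have g := Pool.Agent.Y65.PE.avg (fun s : Conf d L => box b s 0) (fun s τ => put s 0 τ) h1 h2
    (fun s => Pool.Agent.Y65.PE.put_box s 0) (fun s => ‖Ψ s‖ ^ 2)
  rw [nsmul_eq_mul] at g
  exact g

theorem card_rdm (hb : b ≤ L) (Ψ : Conf d L → ℂ) (σ τ : BConf d b) :
    (Fintype.card (BConf d b) : ℂ) * rdm Ψ b σ τ =
      ∑ s : Conf d L, wv Ψ b s σ * conj (wv Ψ b s τ) := by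
  unfold rdm
  rw [Matrix.of_apply, avg_expec hb]
  refine Finset.sum_congr rfl fun s _ => ?_
  rw [Finset.sum_eq_single τ, Finset.sum_eq_single σ]
  · rw [if_pos ⟨rfl, rfl⟩, mul_one, mul_comm]
  · intro y _ hy
    rw [if_neg (fun h => hy h.2), mul_zero, zero_mul]
  · intro h
    exact absurd (Finset.mem_univ _) h
  · intro x _ hx
    refine Finset.sum_eq_zero fun y _ => ?_
    rw [if_neg (fun h => hx h.1), mul_zero, zero_mul]
  · intro h
    exact absurd (Finset.mem_univ _) h

theorem rdmMain : StmRdm := by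
  intro d L b _ hb Ψ hΨ
  have hN : 0 < Fintype.card (BConf d b) := by
    by_contra hcon
    have h0 : Fintype.card (BConf d b) = 0 := by omega
    have hT : IsEmpty (BConf d b) := Fintype.card_eq_zero_iff.1 h0
    have hS : IsEmpty (Conf d L) := ⟨fun s => hT.false (box b s 0)⟩
    unfold nrm at hΨ
    rw [Finset.univ_eq_empty, Finset.sum_empty] at hΨ
    exact zero_ne_one hΨ
  have hNc : (Fintype.card (BConf d b) : ℂ) ≠ 0 := by exact_mod_cast hN.ne'
  have hrep : rdm Ψ b = ((1 / (Fintype.card (BConf d b) : ℝ) : ℝ) : ℂ) •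
      ∑ s : Conf d L, Matrix.vecMulVec (wv Ψ b s) (star (wv Ψ b s)) := by
    ext σ τ
    rw [Matrix.smul_apply, Matrix.sum_apply, smul_eq_mul]
    have h := card_rdm hb Ψ σ τ
    have h2 : ∑ s : Conf d L, Matrix.vecMulVec (wv Ψ b s) (star (wv Ψ b s)) σ τ =
        ∑ s : Conf d L, wv Ψ b s σ * conj (wv Ψ b s τ) := by
      refine Finset.sum_congr rfl fun s _ => ?_
      rw [Matrix.vecMulVec_apply, Pi.star_apply]
      rfl
    rw [h2, ← h]
    push_cast
    field_simp
  have hpsd : (rdm Ψ b).PosSemidef := by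
    rw [hrep]
    refine Matrix.PosSemidef.smul ?_ ?_
    · exact Matrix.posSemidef_sum _ fun s _ => Matrix.posSemidef_vecMulVec_self_star _
    · rw [Complex.zero_le_real]
      positivity
  have htr : (rdm Ψ b).trace = 1 := by
    have h1 : (Fintype.card (BConf d b) : ℂ) * (rdm Ψ b).trace =
        ((Fintype.card (BConf d b) : ℝ) : ℂ) * ((nrm Ψ : ℝ) : ℂ) := by
      rw [← Complex.ofReal_mul, avg_nrm hb, Matrix.trace, Finset.mul_sum]
      simp only [Matrix.diag_apply, card_rdm hb]
      push_cast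
      rw [Finset.sum_comm]
      refine Finset.sum_congr rfl fun s _ => Finset.sum_congr rfl fun σ _ => ?_
      rw [Complex.mul_conj, Complex.normSq_eq_norm_sq]
      push_cast
      rfl
    rw [hΨ, Complex.ofReal_one, mul_one, Complex.ofReal_natCast] at h1
    exact mul_left_cancel₀ hNc (by rw [h1, mul_one])
  refine ⟨hpsd, htr, vnE_nonneg hpsd htr, ?_, ?_⟩
  · have h := vnE_le hpsd htr
    have h2 : Real.log (Fintype.card (BConf d b)) = (b : ℝ) ^ 2 * Real.log d := by
      rw [Fintype.card_fun, Fintype.card_prod, Fintype.card_fin, Fintype.card_fin]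
      push_cast
      rw [Real.log_pow]
      push_cast
      ring
    rw [h2] at h
    exact h
  · intro B
    refine mul_left_cancel₀ hNc ?_
    rw [avg_expec hb, Finset.mul_sum]
    have e1 : ∀ x, (Fintype.card (BConf d b) : ℂ) * ∑ y, B x y * rdm Ψ b y x =
        ∑ y, B x y * ∑ s : Conf d L, wv Ψ b s y * conj (wv Ψ b s x) := by
      intro x
      rw [Finset.mul_sum]
      refine Finset.sum_congr rfl fun y _ => ?_
      rw [← card_rdm hb]
      ring
    simp only [e1, Finset.mul_sum]
    rw [Finset.sum_comm]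
    refine Finset.sum_congr rfl fun x _ => ?_
    rw [Finset.sum_comm]
    refine Finset.sum_congr rfl fun y _ => Finset.sum_congr rfl fun s _ => ?_
    ring

end rdm

end Pool.Agent.N346.TP.Rdm
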